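import Pool.Agent.Helper8K9.DG.Mot

/-!
# Descent from large fields: definitions
-/

set_option autoImplicit false

namespace Pool.Agent.Helper78K9.DS

open Matrix Polynomial Filter Topology NumberField Pool.Agent.Helper8K9.DG

variable {QA : Type} [Field QA] [CharZero QA] {KK : Type} [Field KK]

open Classical in
/-- the matrix of `γ` in the permutation representation `Ind_K 1` on the embeddings of `K` -/
noncomputable def permMatrix (E' : Type) [Field E'] (K : IntermediateField ℚ QA) (γ : QA ≃ₐ[ℚ] QA) :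
    Matrix (K →ₐ[ℚ] QA) (K →ₐ[ℚ] QA) E' :=
  Matrix.of fun τ τ' => if (γ : QA →ₐ[ℚ] QA).comp τ' = τ then 1 else 0

section
variable {E' : Type} [Field E'] (K : IntermediateField ℚ QA)

theorem permMatrix_one [DecidableEq (K →ₐ[ℚ] QA)] : permMatrix E' K 1 = 1 := by
  ext τ τ'
  unfold permMatrix
  rw [Matrix.of_apply]
  by_cases h : τ = τ'
  · subst h
    rw [Matrix.one_apply_eq]
    exact if_pos rfl
  · rw [Matrix.one_apply_ne h]
    exact if_neg fun h' => h h'.symm

theorem permMatrix_mul [FiniteDimensional ℚ K] (γ δ : QA ≃ₐ[ℚ] QA) :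
    permMatrix E' K (γ * δ) = permMatrix E' K γ * permMatrix E' K δ := by
  unfold permMatrix
  ext τ τ'
  rw [Matrix.of_apply, Matrix.mul_apply, Finset.sum_eq_single ((δ : QA →ₐ[ℚ] QA).comp τ')]
  · rw [Matrix.of_apply, Matrix.of_apply, if_pos rfl, mul_one]
    rfl
  · intro τ₁ _ h
    have h2 : ¬ ((δ : QA →ₐ[ℚ] QA).comp τ' = τ₁) := fun h' => h h'.symm
    rw [Matrix.of_apply, Matrix.of_apply, if_neg h2, mul_zero]
  · intro h
    exact absurd (Finset.mem_univ _) h

end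

section

variable {E : Type} [Field E] {d : ℕ} (M : Motive QA KK E d) {E' : Type} [Field E'] [Algebra E E']
  {n : Type} [Fintype n] [DecidableEq n]

theorem base_one (ρ : (QA ≃ₐ[ℚ] QA) →* Matrix n n E') (K : IntermediateField ℚ QA)
    [DecidableEq (n × (K →ₐ[ℚ] QA))] :
    kroneckerMap (· * ·) (ρ 1) (permMatrix E' K 1) = 1 := by
  classical
  rw [map_one, permMatrix_one]
  have h := Matrix.one_kronecker_one (α := E') (m := n) (n := K →ₐ[ℚ] QA)
  have h2 : ∀ (i j : DecidableEq (n × (K →ₐ[ℚ] QA))),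
      (@One.one _ (@Matrix.one _ _ i _ _) : Matrix (n × (K →ₐ[ℚ] QA)) (n × (K →ₐ[ℚ] QA)) E') =
        @One.one _ (@Matrix.one _ _ j _ _) := fun i j => by
    rw [Subsingleton.elim i j]
  exact h.trans (h2 _ _)

theorem base_mul (ρ : (QA ≃ₐ[ℚ] QA) →* Matrix n n E') (K : IntermediateField ℚ QA)
    [FiniteDimensional ℚ K] (γ δ : QA ≃ₐ[ℚ] QA) :
    kroneckerMap (· * ·) (ρ (γ * δ)) (permMatrix E' K (γ * δ)) =
      kroneckerMap (· * ·) (ρ γ) (permMatrix E' K γ) *
        kroneckerMap (· * ·) (ρ δ) (permMatrix E' K δ) := by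
  rw [map_mul, permMatrix_mul]
  exact Matrix.mul_kronecker_mul _ _ _ _

open Classical in
/-- `ρ ⊗ Ind_K 1`: the motive `M ⊗ ρ` over the number field `K`, viewed over `ℚ`, is
`M ⊗ (ρ ⊗ Ind_K 1)` -/
noncomputable def baseChange (ρ : (QA ≃ₐ[ℚ] QA) →* Matrix n n E') (K : IntermediateField ℚ QA)
    [FiniteDimensional ℚ K] :
    (QA ≃ₐ[ℚ] QA) →* Matrix (n × (K →ₐ[ℚ] QA)) (n × (K →ₐ[ℚ] QA)) E' where
  toFun γ := kroneckerMap (· * ·) (ρ γ) (permMatrix E' K γ)
  map_one' := base_one ρ K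
  map_mul' := base_mul ρ K

open Classical in
/-- the L-function of `M ⊗ ρ` over `K` has a nonzero value at `m`, and Deligne's conjecture holds for
`M ⊗ ρ` over `K` at `m` -/
def Known (ι : QA →+* ℂ) (c : QA ≃ₐ[ℚ] QA) (m : ℤ) (ρ : (QA ≃ₐ[ℚ] QA) →* Matrix n n E')
    (K : IntermediateField ℚ QA) [FiniteDimensional ℚ K] : Prop :=
  HasNonzeroValue M ι m (baseChange ρ K) ∧ DeligneConjecture M ι c m (baseChange ρ K)

end

end Pool.Agent.Helper78K9.DS
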