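import Pool.Agent.Helper78K9.DS.Cyc
import Pool.Agent.Helper78K9.DS.Dis

/-!
# [CYCJ] many independent cyclic extensions of the field of rational numbers
-/

set_option autoImplicit false

namespace Pool.Agent.Helper78K9.DS

open NumberField Pool.Agent.Helper8K9.DG IntermediateField

variable {QA : Type} [Field QA] [CharZero QA] [IsAlgClosed QA] [Algebra.IsAlgebraic ℚ QA]
  {KK : Type} [Field KK] [IsAlgClosed KK]

theorem exists_units (k : ℕ) (hk : 0 < k) : ∀ J : ℕ, ∃ (N : ℕ) (_ : NeZero N)
    (f : (ZMod N)ˣ →* (Fin J → Multiplicative (ZMod k))), Function.Surjective f := by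
  intro J
  induction J with
  | zero => exact ⟨1, ⟨one_ne_zero⟩, 1, fun y => ⟨1, Subsingleton.elim _ _⟩⟩
  | succ J ih =>
    obtain ⟨N, hN, f, hf⟩ := ih
    obtain ⟨l, hl, hNl, hlk⟩ := Nat.exists_prime_gt_modEq_one N hk.ne'
    have : Fact l.Prime := ⟨hl⟩
    have hcard : k ∣ Nat.card (ZMod l)ˣ := by
      rw [Nat.card_eq_fintype_card, ZMod.card_units_eq_totient, Nat.totient_prime hl]
      exact (Nat.modEq_iff_dvd' hl.one_le).1 hlk.symm
    obtain ⟨g, hg⟩ := Cyc.exists_cyclic hcard
    have hcop : Nat.Coprime l N := by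
      rw [Nat.Prime.coprime_iff_not_dvd hl]
      intro h
      have := Nat.le_of_dvd (NeZero.pos N) h
      omega
    have h0 : NeZero (l * N) := ⟨(Nat.mul_pos hl.pos (NeZero.pos N)).ne'⟩
    let e : (ZMod (l * N))ˣ ≃* (ZMod l)ˣ × (ZMod N)ˣ :=
      (Units.mapEquiv (ZMod.chineseRemainder hcop).toMulEquiv).trans MulEquiv.prodUnits
    let a : Multiplicative (ZMod k) × (Fin J → Multiplicative (ZMod k)) →*
        (Fin (J + 1) → Multiplicative (ZMod k)) :=
      { toFun := fun x => Fin.cons x.1 x.2
        map_one' := by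
          funext i
          refine Fin.cases ?_ (fun i => ?_) i
          · rfl
          · rfl
        map_mul' := fun x y => by
          funext i
          refine Fin.cases ?_ (fun i => ?_) i
          · rfl
          · rfl }
    have ha : Function.Surjective a := by
      intro y
      refine ⟨(y 0, fun i => y i.succ), ?_⟩
      exact Fin.cons_self_tail y
    refine ⟨l * N, h0, a.comp ((g.prodMap f).comp e.toMonoidHom), ?_⟩
    exact ha.comp ((Function.Surjective.prodMap hg hf).comp e.surjective)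

theorem cycJ : (S_CYCJ QA) := by
  intro k hk J
  obtain ⟨N, hN, f, hf⟩ := exists_units k hk J
  obtain ⟨π, hπ, F, hF1, hF2, hF3⟩ := Cyc.exists_cyc (QA := QA) N
  refine ⟨f.comp π, hf.comp hπ, F, hF1, hF2, fun γ hγ => ?_⟩
  change f (π γ) = 1
  rw [hF3 γ hγ, map_one]

end Pool.Agent.Helper78K9.DS
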