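import Pool.Agent.Helper78K9.DS.Main
import Pool.Agent.Helper78K9.DS.Dis
import Pool.Agent.Helper8K9.DG.Cor

/-!
# Descent from large fields: number fields
-/

set_option autoImplicit false
set_option linter.unusedSectionVars false

namespace Pool.Agent.Helper78K9.DS

open Matrix Polynomial Filter Topology NumberField Pool.Agent.R389 Pool.Agent.H541R3.ART
  Pool.Agent.Helper8K9.DC Pool.Agent.Helper8K9.DG

variable {QA : Type} [Field QA] [CharZero QA] [IsAlgClosed QA] [Algebra.IsAlgebraic ℚ QA]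
  {KK : Type} [Field KK] [IsAlgClosed KK]

theorem cc {ι : QA →+* ℂ} {c : (QA ≃ₐ[ℚ] QA)} (hc : ∀ x, ι (c x) = starRingEnd ℂ (ι x)) : c * c = 1 := by
  refine AlgEquiv.ext fun x => ι.injective ?_
  rw [AlgEquiv.mul_apply, hc, hc, Complex.conj_conj]
  rfl

section gal
variable {E : Type} [Field E] [NumberField E] {d : ℕ} (M : Motive QA KK E d) (ι : QA →+* ℂ) (c : (QA ≃ₐ[ℚ] QA)) (m : ℤ)
  {E' : Type} [Field E'] [NumberField E'] [Algebra E E'] {n : Type} [Fintype n] [DecidableEq n]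
  (ρ : (QA ≃ₐ[ℚ] QA) →* Matrix n n E')

theorem galois_descent (hc : ∀ x, ι (c x) = starRingEnd ℂ (ι x)) (hρ : IsFinite ⊤ ρ)
    (G : Type) [Group G] [Finite G] (π : (QA ≃ₐ[ℚ] QA) →* G) (hsurj : Function.Surjective π)
    (hπ : IsFinite ⊤ π)
    (h : ∀ V : Subgroup G, Hyper V → ∀ (K : IntermediateField ℚ QA) [FiniteDimensional ℚ K],
      K.fixingSubgroup = V.comap π → Known M ι c m ρ K) :
    DeligneConjecture M ι c m ρ ∧ ∀ L, IsLFunction M ι ρ L → ∀ τ, ∃ a : ℂ, a ≠ 0 ∧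
      Tendsto (L τ) (𝓝[≠] (m : ℂ)) (𝓝 a) := by
  refine descent (cc hc) hsurj hπ hρ fun V hV => ?_
  obtain ⟨K, hK, -, hKV⟩ := cor ⊤ G π hπ V
  exact ⟨K, hK, hKV, h V hV K hKV⟩

theorem large_descent (hcyc : (S_CYCJ QA)) (hbig : S_BIG) (hatr : (S_ATR QA))
    (hc : ∀ x, ι (c x) = starRingEnd ℂ (ι x)) (hρ : IsFinite ⊤ ρ) (N : ℕ)
    (F₀ : IntermediateField ℚ QA) [FiniteDimensional ℚ F₀]
    (h : ∀ (K : IntermediateField ℚ QA) [FiniteDimensional ℚ K], IsAbelianGalois ℚ K →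
      IsTotallyReal K → N ≤ Module.finrank ℚ K → K ⊓ F₀ = ⊥ → Known M ι c m ρ K) :
    DeligneConjecture M ι c m ρ ∧ ∀ L, IsLFunction M ι ρ L → ∀ τ, ∃ a : ℂ, a ≠ 0 ∧
      Tendsto (L τ) (𝓝[≠] (m : ℂ)) (𝓝 a) := by
  classical
  obtain ⟨p, hp1, hp⟩ := Nat.exists_infinite_primes (N + 3)
  obtain ⟨q, hq1, hq⟩ := Nat.exists_infinite_primes (p + 1)
  have hpos : 0 < p * q := Nat.mul_pos hp.pos hq.pos
  obtain ⟨π, hsurj, hπ, hdis⟩ := exists_disjoint hcyc (p * q) hpos F₀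
  have : NeZero (p * q) := ⟨hpos.ne'⟩
  refine galois_descent M ι c m ρ hc hρ (CC (p * q)) π hsurj hπ fun V hV K hK hKV => ?_
  have hodd : Odd (Nat.card (CC (p * q))) := by
    have h1 : Nat.card (CC (p * q)) = (p * q) * (p * q) := by
      rw [Nat.card_prod, Nat.card_congr Multiplicative.toAdd, Nat.card_zmod]
    rw [h1]
    have hp2 : Odd p := hp.odd_of_ne_two (by omega)
    have hq2 : Odd q := hq.odd_of_ne_two (by omega)
    exact (hp2.mul hq2).mul (hp2.mul hq2)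
  obtain ⟨h1, h2, h3⟩ := hatr (CC (p * q)) π hodd hsurj V K hKV
  refine h K h1 h2 ?_ (inf_eq_bot hKV hdis)
  rw [h3]
  refine le_trans ?_ (hbig p q hp hq (by omega) V hV)
  exact le_min (by omega) (by omega)

end gal

end Pool.Agent.Helper78K9.DS
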